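import Pool.Agent.Helper6_Eng.Stmts

/-!
Squad ENG (MP_da8eb3_al), module GOD: odd order elements of the symplectic group.
-/

set_option autoImplicit false

namespace Pool.Agent.Eng.H12

open Matrix

theorem eig_pow {F ι : Type} [Field F] [Fintype ι] [DecidableEq ι] (A : Matrix ι ι F)
    (N : ℕ) (hA : A ^ N = 1) (lam : AlgebraicClosure F) (h : Eig A lam) : lam ^ N = 1 := by
  set φ := algebraMap F (AlgebraicClosure F)
  set B : Matrix ι ι (AlgebraicClosure F) := A.map φ with hB
  have h1 : (B.charpoly).eval lam = 0 := by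
    rw [hB, Matrix.charpoly_map, Polynomial.eval_map]
    exact h
  rw [Matrix.eval_charpoly] at h1
  obtain ⟨v, hv, hv'⟩ := Matrix.exists_mulVec_eq_zero_iff.2 h1
  have h2 : B *ᵥ v = lam • v := by
    rw [Matrix.sub_mulVec, sub_eq_zero] at hv'
    rw [← hv']
    ext i
    simp [Matrix.scalar_apply, Matrix.mulVec_diagonal]
  have h3 : ∀ k : ℕ, (B ^ k) *ᵥ v = lam ^ k • v := by
    intro k
    induction k with
    | zero => simp
    | succ k ih =>
      rw [pow_succ, ← Matrix.mulVec_mulVec, h2, Matrix.mulVec_smul, ih, smul_smul, pow_succ,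
        mul_comm]
  have h4 : B ^ N = 1 := by
    have : (A ^ N).map φ = B ^ N := Matrix.map_pow A φ N
    rw [← this, hA]
    simp
  have h5 := h3 N
  rw [h4, Matrix.one_mulVec] at h5
  obtain ⟨i, hi⟩ := Function.ne_iff.1 hv
  have h6 := congrFun h5 i
  simp only [Pi.smul_apply, smul_eq_mul] at h6
  have h7 : (lam ^ N - 1) * v i = 0 := by rw [sub_mul, ← h6, one_mul, sub_self]
  rcases mul_eq_zero.1 h7 with h8 | h8
  · exact sub_eq_zero.1 h8
  · exact absurd h8 hi

/-- the finite set of the eigenvalues -/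
theorem exists_eigs {F ι : Type} [Field F] [Fintype ι] [DecidableEq ι] (A : Matrix ι ι F) :
    ∃ R : Finset (AlgebraicClosure F), R.card ≤ Fintype.card ι ∧ ∀ lam, Eig A lam → lam ∈ R := by
  classical
  refine ⟨(A.charpoly.map (algebraMap F (AlgebraicClosure F))).roots.toFinset, ?_, ?_⟩
  · refine (Multiset.toFinset_card_le _).trans ((Polynomial.card_roots' _).trans ?_)
    rw [Polynomial.natDegree_map, Matrix.charpoly_natDegree_eq_dim]
  · intro lam h
    rw [Multiset.mem_toFinset, Polynomial.mem_roots]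
    · rw [Polynomial.IsRoot, Polynomial.eval_map]
      exact h
    · exact Polynomial.map_ne_zero (Matrix.charpoly_monic A).ne_zero

theorem eig_iter (hGRT : GrtStmt) {F : Type} [Field F] [Finite F] {n : ℕ} (g : Sp n F)
    (lam : AlgebraicClosure F)
    (h : Eig (g : Matrix (Fin n ⊕ Fin n) (Fin n ⊕ Fin n) F) lam) (j : ℕ) :
    Eig (g : Matrix (Fin n ⊕ Fin n) (Fin n ⊕ Fin n) F) (lam ^ (Nat.card F ^ j)) := by
  induction j with
  | zero => simpa using h
  | succ j ih =>
    rw [pow_succ, pow_mul]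
    exact (hGRT F n g _ ih).2.2

/-- **Module GOD.** -/
theorem god (hGEX : GexStmt) (hGRT : GrtStmt) : GodStmt := by
  intro F _ _ p c n g hp hp2 hpF hc hord
  set A : Matrix (Fin n ⊕ Fin n) (Fin n ⊕ Fin n) F := g.1 with hA
  set q := Nat.card F with hq
  have hpowA : ∀ k : ℕ, g ^ k = 1 ↔ A ^ k = 1 := by
    intro k
    constructor
    · intro h
      have := congrArg (fun s : Sp n F => (s : Matrix (Fin n ⊕ Fin n) (Fin n ⊕ Fin n) F)) h
      simpa using this
    · intro h
      apply Subtype.ext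
      simpa using h
  have hNA : A ^ (p ^ c) = 1 := (hpowA _).1 (by rw [← hord]; exact pow_orderOf_eq_one g)
  have hN0 : ((p ^ c : ℕ) : F) ≠ 0 := by
    rw [Nat.cast_pow]
    exact pow_ne_zero _ hpF
  -- an eigenvalue of order `p ^ c`
  obtain ⟨mu, hmu, hmu'⟩ : ∃ mu : AlgebraicClosure F, Eig A mu ∧ mu ^ (p ^ (c - 1)) ≠ 1 := by
    by_contra hcon
    push Not at hcon
    have h1 := hGEX F (Fin n ⊕ Fin n) A (p ^ c) (p ^ (c - 1)) 1 hN0 hNA
      (fun lam hl => by rw [hcon lam hl, map_one])
    rw [one_smul] at h1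
    have h2 := orderOf_dvd_of_pow_eq_one ((hpowA _).2 h1)
    rw [hord] at h2
    have h3 := Nat.le_of_dvd (pow_pos hp.pos _) h2
    have h4 : p ^ (c - 1) < p ^ c := Nat.pow_lt_pow_right hp.one_lt (by omega)
    omega
  have hmuN : mu ^ (p ^ c) = 1 := eig_pow A _ hNA mu hmu
  have hmuord : orderOf mu = p ^ c := by
    have hpf : Fact p.Prime := ⟨hp⟩
    obtain ⟨c', rfl⟩ : ∃ c', c = c' + 1 := ⟨c - 1, by omega⟩
    exact orderOf_eq_prime_pow (by simpa using hmu') hmuN
  obtain ⟨R, hR, hR'⟩ := exists_eigs A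
  have hcard : Fintype.card (Fin n ⊕ Fin n) = 2 * n := by
    rw [Fintype.card_sum, Fintype.card_fin]; ring
  rw [hcard] at hR
  -- the unit `q` modulo `p ^ c`
  have hqp : Nat.Coprime q p := by
    obtain ⟨r, hr⟩ := CharP.exists F
    have hrp := CharP.char_is_prime F r
    have : Fact r.Prime := ⟨hrp⟩
    have hrcard : ∃ k : ℕ, q = r ^ k := by
      have : Fintype F := Fintype.ofFinite F
      obtain ⟨k, _, hk⟩ := FiniteField.card F r
      exact ⟨k, by rw [hq, Nat.card_eq_fintype_card, hk]⟩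
    obtain ⟨k, hk⟩ := hrcard
    rw [hk]
    apply Nat.Coprime.pow_left
    rw [Nat.coprime_primes hrp hp]
    rintro rfl
    exact hpF (CharP.cast_eq_zero F r)
  have hqN : Nat.Coprime q (p ^ c) := Nat.Coprime.pow_right _ hqp
  have hNpos : 0 < p ^ c := pow_pos hp.pos _
  have : NeZero (p ^ c) := ⟨hNpos.ne'⟩
  set Q : (ZMod (p ^ c))ˣ := ZMod.unitOfCoprime q hqN with hQ
  have hQv : ((Q : (ZMod (p ^ c))ˣ) : ZMod (p ^ c)) = (q : ZMod (p ^ c)) := by
    rw [hQ, ZMod.coe_unitOfCoprime]
  set s := orderOf Q with hs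
  have hspos : 0 < s := orderOf_pos Q
  have hinj : ∀ j k : ℕ, mu ^ (q ^ j) = mu ^ (q ^ k) ↔ Q ^ j = Q ^ k := by
    intro j k
    have hmu0 : mu ≠ 0 := (hGRT F n g mu hmu).1
    have e0 : mu ^ (q ^ j) = mu ^ (q ^ k) ↔ (Units.mk0 mu hmu0) ^ (q ^ j)
        = (Units.mk0 mu hmu0) ^ (q ^ k) := by
      rw [← Units.val_inj]
      simp
    have e1 : orderOf (Units.mk0 mu hmu0) = p ^ c := by
      rw [← orderOf_units, Units.val_mk0, hmuord]
    rw [e0, pow_eq_pow_iff_modEq, e1, ← ZMod.natCast_eq_natCast_iff]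
    rw [Nat.cast_pow, Nat.cast_pow, ← hQv, ← Units.val_pow_eq_pow_val, ← Units.val_pow_eq_pow_val,
      Units.val_inj]
  classical
  have hset1 : (Finset.range s).image (fun j => mu ^ (q ^ j)) ⊆ R := by
    intro x hx
    obtain ⟨j, _, rfl⟩ := Finset.mem_image.1 hx
    exact hR' _ (eig_iter hGRT g mu hmu j)
  have hcard1 : ((Finset.range s).image (fun j => mu ^ (q ^ j))).card = s := by
    rw [Finset.card_image_of_injOn, Finset.card_range]
    intro j hj k hk hjk
    have h1 := (hinj j k).1 hjk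
    exact pow_injOn_Iio_orderOf (by simpa using hj) (by simpa using hk) h1
  have hp3 : 2 < p := lt_of_le_of_ne hp.two_le (Ne.symm hp2)
  have hNlt : 2 < p ^ c := lt_of_lt_of_le hp3 (Nat.le_self_pow (by omega) p)
  rcases Nat.even_or_odd s with he | ho
  · -- `q ^ (s / 2) = -1`
    obtain ⟨t, ht⟩ := he
    have ht0 : 0 < t := by omega
    refine ⟨t, ht0, ?_, Or.inr ?_⟩
    · have := Finset.card_le_card hset1
      omega
    · have h1 : Q ^ t ≠ 1 := fun h => by
        have := orderOf_le_of_pow_eq_one ht0 h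
        omega
      have h2 : (Q ^ t) ^ 2 = 1 := by
        rw [← pow_mul, show t * 2 = s by omega]
        exact pow_orderOf_eq_one Q
      have hdiv : p ^ c ∣ (q ^ t - 1) * (q ^ t + 1) := by
        have h3 : ((q ^ t) ^ 2 : ZMod (p ^ c)) = 1 := by
          have := congrArg (fun u : (ZMod (p ^ c))ˣ => (u : ZMod (p ^ c))) h2
          simpa [hQv] using this
        have h4 : (((q ^ t) ^ 2 : ℕ) : ZMod (p ^ c)) = ((1 : ℕ) : ZMod (p ^ c)) := by
          push_cast; exact h3
        rw [ZMod.natCast_eq_natCast_iff] at h4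
        have h5 := (Nat.modEq_iff_dvd' (Nat.one_le_pow _ _
          (Nat.pow_pos (by rw [hq]; exact Nat.card_pos)))).1 h4.symm
        have h6 : (q ^ t) ^ 2 - 1 = (q ^ t - 1) * (q ^ t + 1) := by
          rw [mul_comm, ← Nat.sq_sub_sq, one_pow]
        rwa [h6] at h5
      have hq1 : 1 ≤ q ^ t := Nat.one_le_pow _ _ (by rw [hq]; exact Nat.card_pos)
      have hnd : ¬ p ^ c ∣ q ^ t - 1 := by
        intro h
        apply h1
        apply Units.ext
        rw [Units.val_pow_eq_pow_val, hQv, Units.val_one]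
        have h4 := ((Nat.modEq_iff_dvd' hq1).2 h).symm
        rw [← ZMod.natCast_eq_natCast_iff] at h4
        simpa using h4
      by_cases hpd : p ∣ q ^ t + 1
      · have hnp : ¬ p ∣ q ^ t - 1 := by
          intro h
          have h7 : p ∣ 2 := by
            have : q ^ t + 1 = (q ^ t - 1) + 2 := by omega
            rw [this] at hpd
            exact (Nat.dvd_add_right h).1 hpd
          have := Nat.le_of_dvd (by norm_num) h7
          omega
        have hcop : Nat.Coprime (p ^ c) (q ^ t - 1) :=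
          Nat.Coprime.pow_left _ ((Nat.Prime.coprime_iff_not_dvd hp).2 hnp)
        exact hcop.dvd_of_dvd_mul_left hdiv
      · exfalso
        have hcop : Nat.Coprime (p ^ c) (q ^ t + 1) :=
          Nat.Coprime.pow_left _ ((Nat.Prime.coprime_iff_not_dvd hp).2 hpd)
        exact hnd (hcop.dvd_of_dvd_mul_right hdiv)
  · -- two families
    have hset2 : (Finset.range s).image (fun j => mu⁻¹ ^ (q ^ j)) ⊆ R := by
      intro x hx
      obtain ⟨j, _, rfl⟩ := Finset.mem_image.1 hx
      exact hR' _ (eig_iter hGRT g mu⁻¹ (hGRT F n g mu hmu).2.1 j)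
    have hcard2 : ((Finset.range s).image (fun j => mu⁻¹ ^ (q ^ j))).card = s := by
      rw [Finset.card_image_of_injOn, Finset.card_range]
      intro j hj k hk hjk
      have hjk' : mu ^ (q ^ j) = mu ^ (q ^ k) := by
        have : mu⁻¹ ^ (q ^ j) = mu⁻¹ ^ (q ^ k) := hjk
        rwa [inv_pow, inv_pow, _root_.inv_inj] at this
      exact pow_injOn_Iio_orderOf (by simpa using hj) (by simpa using hk) ((hinj j k).1 hjk')
    have hdisj : Disjoint ((Finset.range s).image (fun j => mu ^ (q ^ j)))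
        ((Finset.range s).image (fun j => mu⁻¹ ^ (q ^ j))) := by
      rw [Finset.disjoint_left]
      intro x hx hx'
      obtain ⟨j, _, hj⟩ := Finset.mem_image.1 hx
      obtain ⟨k, _, hk⟩ := Finset.mem_image.1 hx'
      have hmu0 : mu ≠ 0 := (hGRT F n g mu hmu).1
      have h1 : mu ^ (q ^ j + q ^ k) = 1 := by
        rw [pow_add]
        have h2 : mu ^ (q ^ j) = (mu ^ (q ^ k))⁻¹ := by
          rw [← inv_pow]; exact hj.trans hk.symm
        rw [h2, inv_mul_cancel₀ (pow_ne_zero _ hmu0)]
      have h2 := orderOf_dvd_of_pow_eq_one h1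
      rw [hmuord] at h2
      have h3 : Q ^ j = - Q ^ k := by
        apply Units.ext
        rw [Units.val_neg, Units.val_pow_eq_pow_val, Units.val_pow_eq_pow_val, hQv]
        have h4 := (ZMod.natCast_eq_zero_iff _ _).2 h2
        push_cast at h4
        exact eq_neg_of_add_eq_zero_left h4
      have h5 : (-1 : (ZMod (p ^ c))ˣ) ∈ Subgroup.zpowers Q := by
        have h6 : (-1 : (ZMod (p ^ c))ˣ) = Q ^ j * (Q ^ k)⁻¹ := by
          rw [h3]; simp
        rw [h6]
        exact mul_mem (pow_mem (Subgroup.mem_zpowers Q) j)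
          (inv_mem (pow_mem (Subgroup.mem_zpowers Q) k))
      have h6 := orderOf_dvd_of_mem_zpowers h5
      have h7 : orderOf (-1 : (ZMod (p ^ c))ˣ) = 2 := by
        apply orderOf_eq_prime
        · simp
        · intro h8
          have h9 := congrArg (fun u : (ZMod (p ^ c))ˣ => (u : ZMod (p ^ c))) h8
          have h10 : (-1 : ZMod (p ^ c)) = 1 := by simpa using h9
          have h11 : ((2 : ℕ) : ZMod (p ^ c)) = 0 := by
            push_cast
            linear_combination -h10
          rw [ZMod.natCast_eq_zero_iff] at h11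
          have := Nat.le_of_dvd (by norm_num) h11
          omega
      rw [h7, ← hs] at h6
      rcases ho with ⟨t, ht⟩
      omega
    have hun := Finset.card_le_card (Finset.union_subset hset1 hset2)
    rw [Finset.card_union_of_disjoint hdisj, hcard1, hcard2] at hun
    refine ⟨s, hspos, by omega, Or.inl ?_⟩
    have h1 : Q ^ s = 1 := pow_orderOf_eq_one Q
    have h2 := congrArg (fun u : (ZMod (p ^ c))ˣ => (u : ZMod (p ^ c))) h1
    have h3 : ((q ^ s : ℕ) : ZMod (p ^ c)) = ((1 : ℕ) : ZMod (p ^ c)) := by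
      simpa [hQv] using h2
    rw [ZMod.natCast_eq_natCast_iff] at h3
    exact (Nat.modEq_iff_dvd' (Nat.one_le_pow _ _ (by rw [hq]; exact Nat.card_pos))).1 h3.symm

end Pool.Agent.Eng.H12
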