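import Pool.Agent.Helper6_Eng.Stmts

/-!
Squad ENG (MP_da8eb3_al), module LRE: reducible semisimple elements.
-/

set_option autoImplicit false

namespace Pool.Agent.Eng.H12

open Module

section
variable {F V : Type} [Field F] [AddCommGroup V] [Module F V] {W W' : Submodule F V}

/-- the square zero map given by `N : W' → W` -/
noncomputable def nn (h : IsCompl W W') (N : W' →ₗ[F] W) : V →ₗ[F] V :=
  W.subtype ∘ₗ N ∘ₗ (W'.projectionOnto W h.symm)

theorem nn_apply (h : IsCompl W W') (N : W' →ₗ[F] W) (x : V) :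
    nn h N x = (N (W'.projectionOnto W h.symm x) : V) := rfl

theorem nn_nn (h : IsCompl W W') (N N' : W' →ₗ[F] W) (x : V) : nn h N (nn h N' x) = 0 := by
  rw [nn_apply, nn_apply, Submodule.projectionOnto_apply_right, map_zero]
  rfl

theorem nn_add (h : IsCompl W W') (N N' : W' →ₗ[F] W) (x : V) :
    nn h (N + N') x = nn h N x + nn h N' x := by
  simp [nn_apply]

theorem nn_W (h : IsCompl W W') (N : W' →ₗ[F] W) {x : V} (hx : x ∈ W) : nn h N x = 0 := by
  rw [nn_apply, Submodule.projectionOnto_apply_of_mem_right h.symm hx, map_zero]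
  rfl

theorem nn_W' (h : IsCompl W W') (N : W' →ₗ[F] W) (x : W') : nn h N x = N x := by
  rw [nn_apply, Submodule.projectionOnto_apply_left]

/-- the unipotent map `1 + N` -/
noncomputable def uu (h : IsCompl W W') (N : W' →ₗ[F] W) : V ≃ₗ[F] V where
  toFun x := x + nn h N x
  map_add' x y := by simp only [map_add]; abel
  map_smul' c x := by simp
  invFun x := x - nn h N x
  left_inv x := by simp [nn_nn]
  right_inv x := by simp [nn_nn]

theorem uu_apply (h : IsCompl W W') (N : W' →ₗ[F] W) (x : V) : uu h N x = x + nn h N x := rfl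

theorem uu_add (h : IsCompl W W') (N N' : W' →ₗ[F] W) : uu h (N + N') = uu h N * uu h N' := by
  ext x
  change uu h (N + N') x = uu h N (uu h N' x)
  simp only [uu_apply, nn_add, map_add, nn_nn]
  abel

theorem uu_zero (h : IsCompl W W') : uu h (0 : W' →ₗ[F] W) = 1 := by
  ext x
  change uu h (0 : W' →ₗ[F] W) x = x
  simp [uu_apply, nn_apply]

/-- as a homomorphism -/
noncomputable def uh (h : IsCompl W W') : Multiplicative (W' →ₗ[F] W) →* (V ≃ₗ[F] V) where
  toFun m := uu h m.toAdd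
  map_one' := uu_zero h
  map_mul' _ _ := uu_add h _ _

theorem det_uu [Finite F] (h : IsCompl W W') (N : W' →ₗ[F] W) :
    LinearEquiv.det (uu h N) = 1 := by
  obtain ⟨p, hp⟩ := CharP.exists F
  have hpp : Fact p.Prime := ⟨CharP.char_is_prime F p⟩
  have h1 : (uh h (Multiplicative.ofAdd N)) ^ p = 1 := by
    rw [← map_pow, ← ofAdd_nsmul]
    have : p • N = 0 := by
      rw [← Nat.cast_smul_eq_nsmul F, CharP.cast_eq_zero, zero_smul]
    rw [this]
    exact map_one _
  have h2 : LinearEquiv.det (uu h N) ^ p = 1 := by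
    rw [← map_pow]
    change LinearEquiv.det ((uh h (Multiplicative.ofAdd N)) ^ p) = 1
    rw [h1, map_one]
  have h3 : ((LinearEquiv.det (uu h N) : Fˣ) : F) ^ p = 1 := by
    rw [← Units.val_pow_eq_pow_val, h2]; rfl
  apply Units.ext
  have h4 : (((LinearEquiv.det (uu h N) : Fˣ) : F) - 1) ^ p = 0 := by
    rw [sub_pow_char, h3]; simp
  have := pow_eq_zero_iff hpp.1.ne_zero |>.1 h4
  simpa using sub_eq_zero.1 this

/-- commuting with all `nn` -/
theorem scal_of_comm [FiniteDimensional F V] (h : IsCompl W W') (hW : W ≠ ⊥) (hW' : W' ≠ ⊥)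
    (g : V →ₗ[F] V) (h2 : ∀ x ∈ W', g x ∈ W')
    (hc : ∀ (N : W' →ₗ[F] W) (x : V), nn h N (g x) = g (nn h N x)) :
    ∃ a : F, ∀ v, g v = a • v := by
  obtain ⟨w0, hw0, hw0'⟩ := Submodule.exists_mem_ne_zero_of_ne_bot hW
  obtain ⟨x1, hx1, hx1'⟩ := Submodule.exists_mem_ne_zero_of_ne_bot hW'
  have key : ∀ (ψ : W' →ₗ[F] F) (w : W) (x : W'), ψ ⟨g x, h2 x x.2⟩ • (w : V) = ψ x • g w := by
    intro ψ w x
    have h3 := hc (ψ.smulRight w) x
    rw [nn_W'] at h3
    have h4 : nn h (ψ.smulRight w) (g x) = ((ψ.smulRight w) ⟨g x, h2 x x.2⟩ : V) :=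
      nn_W' h _ ⟨g x, h2 x x.2⟩
    rw [h4] at h3
    simpa using h3
  obtain ⟨ψ, hψ⟩ : ∃ ψ : Module.Dual F W', ψ ⟨x1, hx1⟩ ≠ 0 := by
    by_contra hcon
    push Not at hcon
    have := (Module.forall_dual_apply_eq_zero_iff F (⟨x1, hx1⟩ : W')).1 hcon
    exact hx1' (by simpa using congrArg Subtype.val this)
  set a : F := (ψ ⟨x1, hx1⟩)⁻¹ * ψ ⟨g x1, h2 x1 hx1⟩ with ha
  have hgW : ∀ w : W, g w = a • (w : V) := by
    intro w
    have := key ψ w ⟨x1, hx1⟩
    rw [ha, mul_smul, this, smul_smul, inv_mul_cancel₀ hψ, one_smul]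
  have hgW' : ∀ x : W', g x = a • (x : V) := by
    intro x
    have h5 : (⟨g x, h2 x x.2⟩ : W') - a • x = 0 := by
      rw [← Module.forall_dual_apply_eq_zero_iff F]
      intro φ
      have h6 := key φ ⟨w0, hw0⟩ x
      rw [hgW ⟨w0, hw0⟩, smul_smul] at h6
      have h7 : (φ ⟨g x, h2 x x.2⟩ - φ x * a) • w0 = 0 := by
        rw [sub_smul]
        exact sub_eq_zero.2 h6
      rcases smul_eq_zero.1 h7 with h8 | h8
      · rw [map_sub, map_smul, smul_eq_mul, mul_comm a]
        exact h8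
      · exact absurd h8 hw0'
    have := congrArg Subtype.val (sub_eq_zero.1 h5)
    simpa using this
  refine ⟨a, fun v => ?_⟩
  have hv := Submodule.projection_add_projection_eq_self h v
  rw [← hv, map_add, smul_add]
  congr 1
  · exact hgW (W.projectionOnto W' h v)
  · exact hgW' (W'.projectionOnto W h.symm v)

theorem inv_mem [FiniteDimensional F V] (g : V ≃ₗ[F] V) (h1 : ∀ x ∈ W, g x ∈ W) :
    ∀ x ∈ W, g.symm x ∈ W := by
  intro x hx
  have h2 : W.map (g : V →ₗ[F] V) ≤ W := by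
    rintro _ ⟨y, hy, rfl⟩
    exact h1 y hy
  have h3 : W.map (g : V →ₗ[F] V) = W :=
    Submodule.eq_of_le_of_finrank_eq h2 (LinearEquiv.finrank_map_eq g W)
  rw [← h3] at hx
  obtain ⟨y, hy, rfl⟩ := hx
  simpa using hy

/-- the conjugation of `N` -/
noncomputable def conj (g : V ≃ₗ[F] V) (h1 : ∀ x ∈ W, g.symm x ∈ W) (h2 : ∀ x ∈ W', g x ∈ W') :
    AddMonoid.End (W' →ₗ[F] W) where
  toFun N := ((g.symm : V →ₗ[F] V).restrict h1) ∘ₗ N ∘ₗ ((g : V →ₗ[F] V).restrict h2)
  map_zero' := by ext x; simp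
  map_add' a b := by ext x; simp

theorem nn_conj (h : IsCompl W W') (g : V ≃ₗ[F] V) (h0 : ∀ x ∈ W, g x ∈ W)
    (h1 : ∀ x ∈ W, g.symm x ∈ W)
    (h2 : ∀ x ∈ W', g x ∈ W') (N : W' →ₗ[F] W) (x : V) :
    nn h (conj g h1 h2 N) x = g.symm (nn h N (g x)) := by
  have hv := Submodule.projection_add_projection_eq_self h x
  rw [← hv, map_add, map_add, map_add, map_add]
  congr 1
  · rw [nn_W h _ (Submodule.projection_apply_mem h x),
      nn_W h _ (h0 _ (Submodule.projection_apply_mem h x)), map_zero]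
  · have e1 := nn_W' h (conj g h1 h2 N) (W'.projectionOnto W h.symm x)
    have e2 := nn_W' h N ⟨g (W'.projectionOnto W h.symm x),
      h2 _ (W'.projectionOnto W h.symm x).2⟩
    rw [Submodule.projection_apply, e1, e2]
    rfl

theorem nn_conj_pow (h : IsCompl W W') (g : V ≃ₗ[F] V) (h0 : ∀ x ∈ W, g x ∈ W)
    (h1 : ∀ x ∈ W, g.symm x ∈ W)
    (h2 : ∀ x ∈ W', g x ∈ W') (k : ℕ) (N : W' →ₗ[F] W) (x : V) :
    (g ^ k) (nn h ((conj g h1 h2 ^ k) N) x) = nn h N ((g ^ k) x) := by
  induction k generalizing N x with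
  | zero => simp
  | succ k ih =>
    rw [pow_succ (conj g h1 h2), pow_succ]
    change (g ^ k) (g (nn h ((conj g h1 h2 ^ k) (conj g h1 h2 N)) x)) = nn h N ((g ^ k * g) x)
    have e1 : ∀ y : V, (g ^ k) (g y) = g ((g ^ k) y) := by
      intro y
      change (g ^ k * g) y = (g * g ^ k) y
      rw [← pow_succ, ← pow_succ']
    rw [e1, ih, nn_conj h g h0 h1 h2]
    change g (g.symm (nn h N (g ((g ^ k) x)))) = nn h N ((g ^ k) (g x))
    rw [LinearEquiv.apply_symm_apply, e1]

theorem nn_inj (h : IsCompl W W') {N N' : W' →ₗ[F] W} (hN : ∀ x, nn h N x = nn h N' x) :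
    N = N' := by
  ext x
  rw [← nn_W' h, ← nn_W' h, hN]

end

/-- **Module LRE.** -/
theorem lre (hGH : GHStmt) : LreStmt := by
  intro F V _ _ _ _ _ g W W' e c hW hW' hC hgW hgW' hcop hce d hd
  have hgi := inv_mem (g : V ≃ₗ[F] V) hgW
  have hfinV : Finite V := Module.finite_of_finite F
  have hfinM : Finite (W' →ₗ[F] W) := Module.finite_of_finite F
  let f : Multiplicative (W' →ₗ[F] W) →* SpecialLinearGroup F V :=
    { toFun := fun m => ⟨uu hC m.toAdd, det_uu hC _⟩
      map_one' := Subtype.ext (uu_zero hC)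
      map_mul' := fun _ _ => Subtype.ext (uu_add hC _ _) }
  have hf : ∀ (N : W' →ₗ[F] W) (x : V), f (Multiplicative.ofAdd N) x = x + nn hC N x :=
    fun _ _ => rfl
  have h1 : ∀ m : W' →ₗ[F] W,
      f (Multiplicative.ofAdd m) ∈ Subgroup.center (SpecialLinearGroup F V) → m = 0 := by
    intro N hN
    obtain ⟨x1, hx1, hx1'⟩ := Submodule.exists_mem_ne_zero_of_ne_bot hW'
    rw [Subgroup.mem_center_iff] at hN
    ext x
    have hdual : ∀ φ : Module.Dual F W, φ (N x) = 0 := by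
      intro φ
      have h3 := hN ⟨uu hC.symm (φ.smulRight ⟨x1, hx1⟩), det_uu hC.symm _⟩
      have h4 := congrArg (fun s : SpecialLinearGroup F V => s (x : V)) h3
      change uu hC.symm (φ.smulRight ⟨x1, hx1⟩) (uu hC N x)
        = uu hC N (uu hC.symm (φ.smulRight ⟨x1, hx1⟩) x) at h4
      rw [uu_apply, uu_apply, uu_apply, uu_apply, nn_W' hC, map_add,
        nn_W hC.symm _ x.2, nn_W' hC.symm, add_zero, zero_add, nn_W' hC] at h4
      have h5 : ((φ.smulRight (⟨x1, hx1⟩ : W')) (N x) : V) = 0 := by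
        have := add_left_cancel (a := (x : V) + (N x : V)) (b := _) (c := 0) (h4.trans (add_zero _).symm)
        exact this
      have h6 : φ (N x) • x1 = 0 := by simpa using h5
      exact (smul_eq_zero.1 h6).resolve_right hx1'
    have := (Module.forall_dual_apply_eq_zero_iff F (N x)).1 hdual
    rw [this]
    rfl
  have h2 : ∀ m : W' →ₗ[F] W, g⁻¹ * f (Multiplicative.ofAdd m) * g
      = f (Multiplicative.ofAdd (conj (g : V ≃ₗ[F] V) hgi hgW' m)) := by
    intro N
    apply SpecialLinearGroup.ext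
    intro x
    change (g : V ≃ₗ[F] V).symm (uu hC N ((g : V ≃ₗ[F] V) x)) = _
    rw [hf, uu_apply, map_add, LinearEquiv.symm_apply_apply, nn_conj hC _ hgW]
  have hpow : ∀ (k : ℕ) (x : V), (g ^ k : SpecialLinearGroup F V) x = ((g : V ≃ₗ[F] V) ^ k) x :=
    fun _ _ => rfl
  have hT : conj (g : V ≃ₗ[F] V) hgi hgW' ^ e = 1 := by
    ext1 N
    apply nn_inj hC
    intro x
    have h3 := nn_conj_pow hC (g : V ≃ₗ[F] V) hgW hgi hgW' e N x
    rw [← hpow, ← hpow, hce, hce, map_smul] at h3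
    have hc0 : c ≠ 0 := by
      rintro rfl
      obtain ⟨x1, hx1, hx1'⟩ := Submodule.exists_mem_ne_zero_of_ne_bot hW'
      have := hce x1
      rw [zero_smul] at this
      exact hx1' ((g ^ e : SpecialLinearGroup F V).1.map_eq_zero_iff.1 this)
    exact smul_right_injective V hc0 h3
  have hcopM : Nat.Coprime e (Nat.card (W' →ₗ[F] W)) := by
    rw [Module.natCard_eq_pow_finrank (K := F)]
    exact Nat.Coprime.pow_right _ hcop
  obtain ⟨h3, h4⟩ := hGH (SpecialLinearGroup F V) (Subgroup.center (SpecialLinearGroup F V))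
    (W' →ₗ[F] W) f g (conj (g : V ≃ₗ[F] V) hgi hgW') e h1 h2 hT hcopM d hd
  have hk : ∀ k : ℕ, conj (g : V ≃ₗ[F] V) hgi hgW' ^ k = 1 →
      ∃ a : F, ∀ v, (g ^ k : SpecialLinearGroup F V) v = a • v := by
    intro k hk
    have hinv : ∀ x ∈ W', (((g : V ≃ₗ[F] V) ^ k : V ≃ₗ[F] V) : V →ₗ[F] V) x ∈ W' := by
      intro x hx
      change ((g : V ≃ₗ[F] V) ^ k) x ∈ W'
      clear hk
      induction k with
      | zero => simpa using hx
      | succ k ih =>
        rw [pow_succ']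
        exact hgW' _ ih
    obtain ⟨a, ha⟩ := scal_of_comm hC hW hW' (((g : V ≃ₗ[F] V) ^ k : V ≃ₗ[F] V) : V →ₗ[F] V) hinv
      (by
        intro N x
        have h5 := nn_conj_pow hC (g : V ≃ₗ[F] V) hgW hgi hgW' k N x
        rw [hk] at h5
        exact h5.symm)
    exact ⟨a, ha⟩
  exact ⟨hk _ h3, fun he => hk _ (h4 he)⟩

end Pool.Agent.Eng.H12
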