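import Pool.Agent.Helper6_Eng.Stmts

/-!
Squad ENG (MP_da8eb3_al), module UB.
-/

set_option autoImplicit false

namespace Pool.Agent.Eng.H12

open Matrix

theorem pow_lin {R : Type} [CommRing R] (w : Matrix (Fin 2) (Fin 2) R) (t : R)
    (h : w * w = t • w - 1) (n : ℕ) :
    ∃ a b : R, w ^ n = a • (1 : Matrix (Fin 2) (Fin 2) R) + b • w := by
  induction n with
  | zero => exact ⟨1, 0, by simp⟩
  | succ n ih =>
    obtain ⟨a, b, h1⟩ := ih
    refine ⟨-b, a + b * t, ?_⟩
    rw [pow_succ, h1, add_mul, smul_mul_assoc, smul_mul_assoc, h, one_mul]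
    module

/-- **Module UB.** -/
theorem ub : Sl2EpsStmt := by
  intro R _ η v u h1 h2
  have hv : η * v ^ 2 = v ^ 2 - v := by linear_combination (-v) * h1
  have hdw : (!![1, 1; η * v ^ 2, 1 + η * v ^ 2] : Matrix (Fin 2) (Fin 2) R).det = 1 := by
    rw [Matrix.det_fin_two_of]; ring
  have hdz : (!![1 - v + v ^ 2, -η; -v ^ 2, 1] : Matrix (Fin 2) (Fin 2) R).det = 1 := by
    rw [Matrix.det_fin_two_of]; linear_combination (v) * h1
  obtain ⟨w, hw⟩ : ∃ w : Matrix.SpecialLinearGroup (Fin 2) R,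
      (w : Matrix (Fin 2) (Fin 2) R) = !![1, 1; η * v ^ 2, 1 + η * v ^ 2] := ⟨⟨_, hdw⟩, rfl⟩
  obtain ⟨z, hz⟩ : ∃ w : Matrix.SpecialLinearGroup (Fin 2) R,
      (w : Matrix (Fin 2) (Fin 2) R) = !![1 - v + v ^ 2, -η; -v ^ 2, 1] := ⟨⟨_, hdz⟩, rfl⟩
  have e0 : η * v = v - 1 := by linear_combination -h1
  refine ⟨w, z, hw, ?_, ?_⟩
  · apply Subtype.ext
    simp only [Matrix.SpecialLinearGroup.coe_mul, hw, hz, hv, Matrix.mul_fin_two]
    congr 1
    ext i j
    fin_cases i <;> fin_cases j <;> simp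
    · linear_combination (v ^ 2) * e0
    · linear_combination (η * (v - 1) - 1) * e0
    · linear_combination (v * (1 - v) ^ 2) * e0
    · linear_combination (1 - (1 - v + v ^ 2) * (1 - v)) * e0
  · intro n hn
    have hn' : (w : Matrix (Fin 2) (Fin 2) R) ^ n * (z : Matrix (Fin 2) (Fin 2) R)
        = (z : Matrix (Fin 2) (Fin 2) R) * (w : Matrix (Fin 2) (Fin 2) R) ^ n := by
      have := congrArg (fun x : Matrix.SpecialLinearGroup (Fin 2) R =>
        (x : Matrix (Fin 2) (Fin 2) R)) hn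
      simpa using this
    have hsq : (w : Matrix (Fin 2) (Fin 2) R) * w = (2 + η * v ^ 2) • (w : Matrix (Fin 2) (Fin 2) R) - 1 := by
      rw [hw, Matrix.mul_fin_two]
      ext i j
      fin_cases i <;> fin_cases j <;> simp <;> ring
    obtain ⟨a, b, hab⟩ := pow_lin (w : Matrix (Fin 2) (Fin 2) R) _ hsq n
    rw [hab] at hn' ⊢
    have hb : b = 0 := by
      rw [hw, hz, hv] at hn'
      have h00 := congrFun (congrFun hn' 0) 0
      simp [Matrix.add_mul, Matrix.mul_add] at h00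
      have h5 : b * (v * (1 + η)) = 0 := by linear_combination (-1) * h00 + b * v * e0
      have h6 : b = b * ((1 - η) * v) * ((1 + η) * u) := by rw [h1, h2]; ring
      rw [h6]
      linear_combination (1 - η) * u * h5
    exact ⟨a, by rw [hb]; simp⟩

end Pool.Agent.Eng.H12
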